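import Pool.Agent.E8helper19.QC.EX
import Pool.Agent.E8helper31.QC.Dec
import Pool.Agent.E8helper36.QC.Even
import Pool.Agent.E8helper36.QC.Wk
import Pool.Agent.E8helper38.QC.Mom
import Pool.Agent.E8helper39.QC.Nu
import Pool.Agent.E8helper41.QC.Sml
import Pool.Agent.E8helper41.QC.Sub
import Pool.Agent.E8helper42.QC.Pos
import Pool.Agent.E8helper19.QC.Loj
import Pool.Agent.E8helper63.QC.ASY
import Pool.Agent.E8helper63.QC.PB
import Pool.Agent.E8helper70.QC.FULL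
import Pool.Agent.E8helper71.QC.Lrg
import Pool.Agent.E8helper81.QC.Dece
import Pool.Agent.E8helper87.QC.FS

/-!
# Singular Q-curvature solutions with prescribed polynomial part (MP_d59d86_an)

A full positive answer to Q1.
-/

set_option autoImplicit false
open MeasureTheory Filter Topology SchwartzMap FourierTransform Laplacian
open scoped ContDiff ENNReal Real

namespace Pool.Agent.Results.MP_d59d86_an.PrescribedPolynomialH19

noncomputable section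

/-- `ℝ^n` -/
abbrev E (n : ℕ) : Type := EuclideanSpace ℝ (Fin n)

/-- the value of a polynomial at a point of `ℝ^n` -/
def pv {n : ℕ} (p : MvPolynomial (Fin n) ℝ) (x : E n) : ℝ := MvPolynomial.eval (fun i => x i) p

/-- the volume `2 π^((n+1)/2) / Γ((n+1)/2)` of the unit sphere `S^n` of `ℝ^(n+1)` -/
def sphereVol (n : ℕ) : ℝ := 2 * π ^ (((n : ℝ) + 1) / 2) / Real.Gamma (((n : ℝ) + 1) / 2)

/-- `Λ₁ = (n-1)! |S^n|` -/
def Lam1 (n : ℕ) : ℝ := ((n - 1).factorial : ℝ) * sphereVol n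

/-- `(-Δ)^(n/2) φ`, defined by the Fourier transform (with `𝓕 f(ξ) = ∫ e^(-2πi x·ξ) f(x) dx`,
so that `-Δ` has the symbol `(2π|ξ|)^2`) -/
def FL (n : ℕ) (φ : 𝓢(E n, ℂ)) : E n → ℂ :=
  𝓕⁻ (fun ξ : E n => (((2 * π * ‖ξ‖) ^ n : ℝ) : ℂ) * 𝓕 (φ : E n → ℂ) ξ)

/-- `u` is a weak solution of `(-Δ)^(n/2) u = e^(nu) |x|^(nα)` in `ℝ^n`. -/
structure IsSol (n : ℕ) (α : ℝ) (u : E n → ℝ) : Prop where
  loc : LocallyIntegrable u
  even : Even n → ∀ φ : E n → ℝ, ContDiff ℝ ∞ φ → HasCompactSupport φ →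
    ∫ x, u x * ((-1) ^ (n / 2) * (Laplacian.laplacian^[n / 2] φ) x) =
      ∫ x, Real.exp (n * u x) * ‖x‖ ^ ((n : ℝ) * α) * φ x
  odd : Odd n → Integrable (fun x => |u x| * (1 + ‖x‖ ^ (2 * n))⁻¹) ∧ ∀ φ : 𝓢(E n, ℂ),
    Integrable (fun x => (u x : ℂ) * FL n φ x) ∧
    ∫ x, (u x : ℂ) * FL n φ x =
      ∫ x, ((Real.exp (n * u x) * ‖x‖ ^ ((n : ℝ) * α) : ℝ) : ℂ) * φ x

/-- For all `n ≥ 3`, `α > -1`, `0 < Λ < Λ₁ min{1, 1+α}` and every polynomial `p` of degree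
`≤ n - 1` tending to `-∞` there is a solution `u` of total Q-curvature `Λ` with
`u(x) - p(x) + (2Λ/Λ₁) log|x| → C` as `|x| → ∞`. -/
theorem result :
    ∀ (n : ℕ) (α Λ : ℝ) (p : MvPolynomial (Fin n) ℝ), 3 ≤ n → -1 < α → 0 < Λ →
      Λ < Lam1 n * min 1 (1 + α) → p.totalDegree ≤ n - 1 →
      Tendsto (pv p) (cocompact (E n)) atBot →
      ∃ (u : E n → ℝ) (C : ℝ), IsSol n α u ∧
        Integrable (fun x => Real.exp (n * u x) * ‖x‖ ^ ((n : ℝ) * α)) ∧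
        ∫ x, Real.exp (n * u x) * ‖x‖ ^ ((n : ℝ) * α) = Λ ∧
        Tendsto (fun x => u x - pv p x + 2 * Λ / Lam1 n * Real.log ‖x‖) (cocompact (E n))
          (𝓝 C) := by
  intro n α Λ p hn hα h0 h1 hd hp
  have dec : Pool.Agent.E8helper19.QC.S_DEC :=
    Pool.Agent.E8helper31.QC.t_DEC Pool.Agent.E8helper81.QC.t_DECE Pool.Agent.E8helper41.QC.t_SUB
      Pool.Agent.E8helper41.QC.t_SML Pool.Agent.E8helper71.QC.t_LRG
  have full : Pool.Agent.E8helper19.QC.S_FULL :=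
    Pool.Agent.E8helper70.QC.t_FULL Pool.Agent.E8helper19.QCJ.t_LOJ Pool.Agent.E8helper39.QC.t_NU
      Pool.Agent.E8helper63.QC.t_PB
      (Pool.Agent.E8helper19.QC.t_EX Pool.Agent.E8helper63.QC.t_PB Pool.Agent.E8helper42.QC.t_POS
        Pool.Agent.E8helper36.QC.t_WK)
      Pool.Agent.E8helper63.QC.t_ASY dec (Pool.Agent.E8helper38.QCM.t_MOM dec)
      (Pool.Agent.E8helper87.QC.t_FS dec) Pool.Agent.E8helper36.QC.t_EVEN
  obtain ⟨u, C, hu, h⟩ := full n α Λ p hn hα h0 h1 hd hp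
  exact ⟨u, C, ⟨hu.loc, hu.even, hu.odd⟩, h⟩

end

end Pool.Agent.Results.MP_d59d86_an.PrescribedPolynomialH19
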